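import Pool.Agent.helper93.TV.Spec3

/-!
# Row CC2: the number of unitary fusion categories with at most M vertices (MP_29f1cd_al)
-/

set_option autoImplicit false

namespace Pool.Agent.helper93.TV

open BigOperators Finset

private lemma CC2_gen (C : SkelCat) (o : Fin C.r) (d : Fin C.r → Fin C.r) (hC : C.IsUFC o d)
    (b : Fin C.r) : C.Gen o ((univ : Finset (Fin C.r)) : Set (Fin C.r)) b := by
  have h1 : C.mult o b b = 1 := by rw [hC.unit_left, if_pos rfl]
  have h2 : (univ.filter fun v => C.s1 v = o ∧ C.s2 v = b ∧ C.t v = b).Nonempty := by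
    rw [← Finset.card_pos]
    unfold SkelCat.mult at h1
    omega
  obtain ⟨v, hv⟩ := h2
  obtain ⟨hv1, hv2, hv3⟩ := (Finset.mem_filter.1 hv).2
  have h3 : C.Gen o ((univ : Finset (Fin C.r)) : Set (Fin C.r)) (C.t v) := by
    refine SkelCat.Gen.mul v ?_ ?_
    · rw [hv1]; exact SkelCat.Gen.unit
    · simp
  rwa [hv3] at h3

private lemma CC2_num (K x : ℝ) (hK : 0 ≤ K) (hx : 2 ≤ x) :
    K * x ^ (7 / 8 : ℝ) * Real.log x ^ 2 + 24 * x ^ (4 : ℕ) * Real.log x ≤
      (K + 24) * x ^ (4 : ℕ) * Real.log x := by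
  have hl0 : 0 ≤ Real.log x := Real.log_nonneg (by linarith)
  have hl1 : Real.log x ≤ x := (Real.log_le_sub_one_of_pos (by linarith)).trans (by linarith)
  have hp : x ^ (7 / 8 : ℝ) ≤ x := by
    calc x ^ (7 / 8 : ℝ) ≤ x ^ (1 : ℝ) := Real.rpow_le_rpow_of_exponent_le (by linarith) (by norm_num)
      _ = x := Real.rpow_one x
  have hp0 : 0 ≤ x ^ (7 / 8 : ℝ) := Real.rpow_nonneg (by linarith) _
  have h1 : x ^ (7 / 8 : ℝ) * Real.log x ≤ x ^ 4 := by
    calc x ^ (7 / 8 : ℝ) * Real.log x ≤ x * x := mul_le_mul hp hl1 hl0 (by linarith)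
      _ ≤ x ^ 4 := by nlinarith [mul_self_nonneg (x * x - 1), mul_self_nonneg x]
  have h2 : K * x ^ (7 / 8 : ℝ) * Real.log x ^ 2 ≤ K * x ^ (4 : ℕ) * Real.log x := by
    calc K * x ^ (7 / 8 : ℝ) * Real.log x ^ 2 = (K * Real.log x) * (x ^ (7 / 8 : ℝ) * Real.log x) := by ring
      _ ≤ (K * Real.log x) * x ^ 4 := mul_le_mul_of_nonneg_left h1 (mul_nonneg hK hl0)
      _ = K * x ^ (4 : ℕ) * Real.log x := by ring
  nlinarith [h2]

theorem CC2 : CC2_stmt := by
  intro hFDO hRG _ hKQ hAA hFIB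
  obtain ⟨K, hK0, hK⟩ := hFIB
  refine ⟨K + 24, ?_⟩
  intro M hM k E hE hne hn
  have hb : ∀ i, (univ.filter fun j => (E j).ring = (E i).ring).card ≤ M ^ (24 * M ^ 4) := by
    intro i
    obtain ⟨o, d, hC⟩ := hE i
    obtain ⟨D, h1, h2, h3, -, -, h6⟩ := hFDO (E i) o d hC
    have hRg := hRG _ _ D (E i).F h6
    have hk := (hKQ _ _ D univ hRg).2
    have hm : ∀ a b c, (E i).mult a b c = D.mlt a b c := by
      intro a b c
      unfold FD.mlt SkelCat.mult
      rw [h1, h2, h3]
    have hkap : (E i).kappa univ = D.kap univ := by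
      unfold SkelCat.kappa FD.kap
      simp only [hm]
    have h7 := hAA (E i) o d univ M hC (mem_univ _) (fun x _ => mem_univ _)
      (CC2_gen (E i) o d hC) (hn i) hM
      (univ.filter fun j => (E j).ring = (E i).ring).card
      (fun a => E ((univ.filter fun j => (E j).ring = (E i).ring).equivFin.symm a))
      (fun a => hE _)
      (fun a => (Finset.mem_filter.1
        ((univ.filter fun j => (E j).ring = (E i).ring).equivFin.symm a).2).2)
      (fun a b hab => hne _ _ fun hh =>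
        hab ((univ.filter fun j => (E j).ring = (E i).ring).equivFin.symm.injective
          (Subtype.ext hh)))
    refine h7.trans (Nat.pow_le_pow_right (by omega) (Nat.mul_le_mul_left _ ?_))
    rw [hkap]
    refine hk.trans ?_
    rw [Fintype.card_fin]
    exact Nat.pow_le_pow_left (hn i) 4
  have h8 := hK k E hE M _ hM hn hb
  have hM0 : (0 : ℝ) < M := by
    have : (2 : ℝ) ≤ M := by exact_mod_cast hM
    linarith
  have h9 : ((M ^ (24 * M ^ 4) : ℕ) : ℝ) = Real.exp (24 * (M : ℝ) ^ (4 : ℕ) * Real.log M) := by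
    rw [Nat.cast_pow, ← Real.exp_log (pow_pos hM0 (24 * M ^ 4)), Real.log_pow]
    push_cast
    ring_nf
  rw [h9, ← Real.exp_add] at h8
  refine h8.trans (Real.exp_le_exp.2 ?_)
  exact CC2_num K M hK0 (by exact_mod_cast hM)

end Pool.Agent.helper93.TV
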