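import Pool.Agent.helper93.TV.Spec2

/-!
# Row PJ: projections (MP_29f1cd_al)
-/

set_option autoImplicit false

namespace Pool.Agent.helper93.TV

open Matrix

private lemma PJ_diag {ι : Type} [Fintype ι] [DecidableEq ι] (P : Matrix ι ι ℂ) (h1 : Pᴴ = P)
    (h2 : P * P = P) :
    ∃ (U : Matrix ι ι ℂ) (T : Finset ι), Uᴴ * U = 1 ∧
      P = U * diagonal (fun i => if i ∈ T then (1 : ℂ) else 0) * Uᴴ := by
  have hA : P.IsHermitian := h1
  set U : Matrix ι ι ℂ := (hA.eigenvectorUnitary : Matrix ι ι ℂ) with hUdef
  set D : Matrix ι ι ℂ := diagonal (RCLike.ofReal ∘ hA.eigenvalues) with hDdef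
  have hU1 : star U * U = 1 := Unitary.coe_star_mul_self _
  have hU2 : U * star U = 1 := Unitary.coe_mul_star_self _
  have hs : P = U * D * star U := by
    have := hA.spectral_theorem
    rwa [Unitary.conjStarAlgAut_apply] at this
  have hD : star U * P * U = D := by
    rw [hs]
    calc star U * (U * D * star U) * U = (star U * U) * D * (star U * U) := by
          simp only [Matrix.mul_assoc]
      _ = D := by rw [hU1, Matrix.one_mul, Matrix.mul_one]
  have hDD : D * D = D := by
    calc D * D = (star U * P * U) * (star U * P * U) := by rw [hD]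
      _ = star U * (P * (U * star U) * P) * U := by simp only [Matrix.mul_assoc]
      _ = star U * P * U := by rw [hU2, Matrix.mul_one, h2]
      _ = D := hD
  have hl : ∀ i, hA.eigenvalues i = 1 ∨ hA.eigenvalues i = 0 := by
    intro i
    have h3 : (D * D) i i = D i i := by rw [hDD]
    rw [hDdef, diagonal_mul_diagonal, diagonal_apply_eq, diagonal_apply_eq] at h3
    simp only [Function.comp] at h3
    have h4 : hA.eigenvalues i * hA.eigenvalues i = hA.eigenvalues i := by
      exact_mod_cast h3
    rcases eq_or_ne (hA.eigenvalues i) 0 with h | h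
    · right; exact h
    · left; exact mul_right_cancel₀ h (by rw [h4, one_mul])
  refine ⟨U, Finset.univ.filter fun i => hA.eigenvalues i = 1, ?_, ?_⟩
  · exact hU1
  · have hDT : D = diagonal (fun i =>
        if i ∈ Finset.univ.filter (fun i => hA.eigenvalues i = 1) then (1 : ℂ) else 0) := by
      rw [hDdef]
      refine congrArg diagonal ?_
      funext i
      rcases hl i with h | h
      · simp [h]
      · simp [h]
    rw [← hDT]
    exact hs

theorem PJ : PJ_stmt := by
  intro ι _ _ P h1 h2
  obtain ⟨U, T, hU, hP⟩ := PJ_diag P h1 h2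
  have htr : P.trace = (T.card : ℂ) := by
    rw [hP, Matrix.trace_mul_comm, ← Matrix.mul_assoc, hU, Matrix.one_mul, Matrix.trace_diagonal]
    simp
  refine ⟨⟨T.card, htr⟩, ?_⟩
  intro κ _ _ hκ
  have hc : Fintype.card κ = Fintype.card T := by
    rw [Fintype.card_coe]
    have : (Fintype.card κ : ℂ) = (T.card : ℂ) := by rw [← hκ, htr]
    exact_mod_cast this
  let e : κ ≃ T := Fintype.equivOfCardEq hc
  refine ⟨fun a j => star (U j (e a)), ?_, ?_⟩
  · ext a b
    rw [Matrix.mul_apply]
    have h3 : ∀ j, star (U j (e a)) * (Matrix.conjTranspose (fun a j => star (U j (e a)) : Matrix κ ι ℂ)) j b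
        = Uᴴ (e a) j * U j (e b) := by
      intro j
      rw [Matrix.conjTranspose_apply, Matrix.conjTranspose_apply, star_star]
    rw [Finset.sum_congr rfl fun j _ => h3 j, ← Matrix.mul_apply, hU]
    by_cases h : a = b
    · rw [h, Matrix.one_apply_eq, Matrix.one_apply_eq]
    · rw [Matrix.one_apply_ne h, Matrix.one_apply_ne]
      intro hh
      exact h (e.injective (Subtype.ext hh))
  · ext j k
    rw [hP, Matrix.mul_apply, Matrix.mul_apply]
    have h3 : ∀ a : κ, (Matrix.conjTranspose (fun a j => star (U j (e a)) : Matrix κ ι ℂ)) j a *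
        star (U k (e a)) = (fun t : T => U j t * star (U k t)) (e a) := by
      intro a
      rw [Matrix.conjTranspose_apply, star_star]
    rw [Finset.sum_congr rfl fun a _ => h3 a, Equiv.sum_comp e (fun t : T => U j t * star (U k t))]
    have h4 : ∀ i : ι, (U * diagonal (fun i => if i ∈ T then (1 : ℂ) else 0)) j i * Uᴴ i k =
        if i ∈ T then U j i * star (U k i) else 0 := by
      intro i
      rw [Matrix.mul_diagonal, Matrix.conjTranspose_apply]
      split_ifs <;> simp
    rw [Finset.sum_congr rfl fun i _ => h4 i, Finset.sum_ite_mem, Finset.univ_inter]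
    exact Finset.sum_coe_sort T (fun i => U j i * star (U k i))

end Pool.Agent.helper93.TV
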